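import Pool.Agent.Helper52.C2.Goals

/-!
PROJECT C2, packet OPS: closure of HH1 and of good pairs.
-/

namespace Pool.Agent.Helper82.C2

open LaurentPolynomial Pool.Agent.Helper52.C2

theorem nonneg_update {J : Type} [DecidableEq J] {a : J → Tg} (h : ∀ l, (a l).Nonneg) (k : J)
    {A : Tg} (hA : A.Nonneg) : ∀ l, ((Function.update a k A) l).Nonneg := by
  intro l
  by_cases hl : l = k
  · subst hl
    simpa using hA
  · rw [Function.update_of_ne hl]
    exact h l

/-- the case of three channels, the first two are replaced -/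
theorem three (hS : GoalSubst) (hC : GoalCoefH) (hO : GoalOpMap) (hP : GoalPos1)
    (nU : (U 0).Nonneg) (Φ : (Fin 3 → Tg) → ℝ[T;T⁻¹]) (hA1 : Affine Φ) (hA2 : SlotNonneg Φ)
    (h : Pos Φ (fun _ => True) (fun _ => U 0)) {A B : Tg} (hA : A.HH1) (hB : B.HH1) :
    (slot Φ (Function.update (Function.update (fun _ => U 0) 0 A) 1 B) 2).HH1 := by
  have p0 := hS (Fin 3) Φ hA1 hA2 (fun _ => True) (fun _ => U 0) 0 A (fun _ => nU) trivial hA h
  have n0 := nonneg_update (a := fun _ : Fin 3 => U 0) (fun _ => nU) 0 hA.nonneg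
  have p1 := hS (Fin 3) Φ hA1 hA2 _ _ 1 B n0 (by simp) hB p0
  have n1 := nonneg_update n0 1 hB.nonneg
  exact hP hC hO (Fin 3) Φ _ _ 2 hA1 (hA2 _ 2 n1) (by decide) p1

/-- the case of four channels, the first three are replaced -/
theorem four (hS : GoalSubst) (hC : GoalCoefH) (hO : GoalOpMap) (hP : GoalPos1)
    (nU : (U 0).Nonneg) (Φ : (Fin 4 → Tg) → ℝ[T;T⁻¹]) (hA1 : Affine Φ) (hA2 : SlotNonneg Φ)
    (h : Pos Φ (fun _ => True) (fun _ => U 0)) {A B C : Tg} (hA : A.HH1) (hB : B.HH1)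
    (hC' : C.HH1) :
    (slot Φ (Function.update (Function.update (Function.update (fun _ => U 0) 0 A) 1 B) 2 C)
      3).HH1 := by
  have p0 := hS (Fin 4) Φ hA1 hA2 (fun _ => True) (fun _ => U 0) 0 A (fun _ => nU) trivial hA h
  have n0 := nonneg_update (a := fun _ : Fin 4 => U 0) (fun _ => nU) 0 hA.nonneg
  have p1 := hS (Fin 4) Φ hA1 hA2 _ _ 1 B n0 (by simp) hB p0
  have n1 := nonneg_update n0 1 hB.nonneg
  have p2 := hS (Fin 4) Φ hA1 hA2 _ _ 2 C n1 (by simp) hC' p1
  have n2 := nonneg_update n1 2 hC'.nonneg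
  exact hP hC hO (Fin 4) Φ _ _ 3 hA1 (hA2 _ 3 n2) (by decide) p2

/-- OPS. -/
theorem ops : GoalOps := by
  intro hS hC hO hP hN hAff hSl h1 h2 h3
  have nU : (U 0).Nonneg := hN.2 0 le_rfl
  refine ⟨?_, ?_, ?_⟩
  · intro A B hA hB
    have := three hS hC hO hP nU K1 hAff.1.1 hAff.1.2 h1 hA hB
    rw [hSl.1] at this
    simpa using this
  · intro A B hA hB S hS'
    have := four hS hC hO hP nU K2 hAff.2.1.1 hAff.2.1.2 h2 hA hB hS'
    rw [hSl.2.1] at this
    simpa using this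
  · intro A B hA hB S hS'
    have := four hS hC hO hP nU K3 hAff.2.2.1 hAff.2.2.2 h3 hA hB hS'
    rw [hSl.2.2] at this
    simpa using this

end Pool.Agent.Helper82.C2
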